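import Pool.Agent.Helper63.Sey2.Goals

/-!
# Packet SEY2-JOH: proper colouring with few colours from the parameters, the partial colouring and
the list colouring
-/

namespace Pool.Agent.Helper79.Sey2

open Pool.Agent.Helper63.Sey2

theorem goalJOH : GoalNOBAD → GoalNUM → GoalLIST → GoalJOH := by
  classical
  intro hNB hNUM hLIST K hK
  obtain ⟨K2, hK2, hpar⟩ := hNUM K hK
  refine ⟨K2, hK2, ?_⟩
  intro k Δ hk hΔ V _ H hdeg hcl
  obtain ⟨q, M, ℓ, I, m, hq1, hq2, hM, h16, hℓ, hI, hIk, h4⟩ := hpar k Δ hk hΔ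
  obtain ⟨φ, hOk, hbad⟩ := hNB V H k (2 * K) q M ℓ I m Δ (by omega) hdeg hcl hq2 hM h16 hI hIk h4
  have hMpos : 1 ≤ M := by
    rw [hM]
    exact Nat.one_le_iff_ne_zero.mpr (by positivity)
  have hqpos : 0 < q := by
    have h1 : 16 * 1 * 2 ≤ 16 * M * ℓ := Nat.mul_le_mul (Nat.mul_le_mul le_rfl hMpos) hℓ
    omega
  have hne : Nonempty (Fin q) := ⟨⟨0, hqpos⟩⟩
  obtain ⟨col0, hc1, hc2⟩ := hLIST V (Fin q) H (fun u => φ u = none)
    (fun u c => Em {w | H.Adj u w} c φ) ℓ hℓ
    (by
      intro u _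
      have hb := hbad u
      unfold Bad at hb
      rw [not_or] at hb
      have hcard : ℓ ≤ Nat.card {c // Em {w | H.Adj u w} c φ} := not_lt.mp hb.1
      have hcard2 : Fintype.card (Fin ℓ) ≤
          Fintype.card {c // Em {w | H.Adj u w} c φ} := by
        rw [Fintype.card_fin, ← Nat.card_eq_fintype_card]
        exact hcard
      obtain ⟨e⟩ := Function.Embedding.nonempty_of_card_le hcard2
      exact ⟨fun i => (e i).1, fun i j hij => e.injective (Subtype.ext hij), fun i => (e i).2⟩)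
    (by
      intro u c _ hc
      have hb := hbad u
      unfold Bad at hb
      rw [not_or] at hb
      by_contra hlt
      exact hb.2 ⟨c, hc, not_le.mp hlt⟩)
  have hcol : ∀ u, (φ u = none ∧ (φ u).getD (col0 u) = col0 u) ∨
      (φ u = some ((φ u).getD (col0 u))) := by
    intro u
    cases hu : φ u with
    | none => exact Or.inl ⟨rfl, rfl⟩
    | some c => exact Or.inr rfl
  refine ⟨q, fun u => (φ u).getD (col0 u), hq1, ?_⟩
  intro u v huv h
  have h' : (φ u).getD (col0 u) = (φ v).getD (col0 v) := h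
  rcases hcol u with ⟨hu, hu'⟩ | hu <;> rcases hcol v with ⟨hv, hv'⟩ | hv
  · exact hc2 u v hu hv huv (by rw [← hu', ← hv']; exact h')
  · exact hc1 u hu v huv (by rw [hv, ← h', hu'])
  · exact hc1 v hv u huv.symm (by rw [hu, h', hv'])
  · exact hOk u v _ huv hu (by rw [h']; exact hv)

end Pool.Agent.Helper79.Sey2
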